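import Mathlib

namespace Pool.Agent.Results.MP_1375b8_an.EventuallyZero

/-- `y` is a solution of the recursion with parameter `μ`. -/
def IsSolution (μ : ℝ) (y : ℕ → ℝ) : Prop :=
  (∀ n, y (2 * n + 1) = y (2 * n) + μ * (1 - Real.exp (y n))) ∧
    ∀ n, 1 ≤ n → y (2 * n) = y (2 * n - 1) + μ * (1 - Real.exp (y n))

/-- For `0 < μ < 1` there is a positive `a` with `a = μ (exp a - 1)`. -/
lemma exists_start (μ : ℝ) (h0 : 0 < μ) (h1 : μ < 1) :
    ∃ a : ℝ, 0 < a ∧ a + μ * (1 - Real.exp a) = 0 := by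
  have hs : 0 < (1 - μ) / 2 := by linarith
  have hsv : 0 < (1 - μ) / 2 + μ * (1 - Real.exp ((1 - μ) / 2)) := by
    set s := (1 - μ) / 2 with hsdef
    have e1 : -s + 1 ≤ Real.exp (-s) := Real.add_one_le_exp (-s)
    have e2 : Real.exp (-s) * Real.exp s = 1 := by
      rw [← Real.exp_add]; simp
    have e3 : (-s + 1) * Real.exp s ≤ 1 := by
      have := mul_le_mul_of_nonneg_right e1 (Real.exp_pos s).le
      rwa [e2] at this
    have e4 : μ < 1 - s := by linarith
    have e5 : 0 < Real.exp s := Real.exp_pos s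
    have e6 : μ * (1 - s) < 1 - s := by nlinarith
    have e7 : (1 - s) * (s + μ * (1 - Real.exp s)) ≥ (1 - s) * s + μ * (1 - s) - μ := by
      nlinarith
    have e8 : (1 - s) * s + μ * (1 - s) - μ = s * (1 - s - μ) := by ring
    have e9 : 0 < s * (1 - s - μ) := by
      apply mul_pos hs; linarith
    have e10 : 0 < (1 - s) * (s + μ * (1 - Real.exp s)) := by linarith
    exact (pos_iff_pos_of_mul_pos e10).mp (by linarith)
  have htv : 2 / μ + μ * (1 - Real.exp (2 / μ)) < 0 := by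
    have e1 := Real.quadratic_le_exp_of_nonneg (show (0 : ℝ) ≤ 2 / μ by positivity)
    have e2 : 2 / μ + μ * (1 - Real.exp (2 / μ)) ≤
        2 / μ + μ * (1 - (1 + 2 / μ + (2 / μ) ^ 2 / 2)) := by
      have := mul_le_mul_of_nonneg_left e1 h0.le
      linarith
    have e3 : 2 / μ + μ * (1 - (1 + 2 / μ + (2 / μ) ^ 2 / 2)) = -2 := by
      field_simp
      ring
    linarith
  have hle : (1 - μ) / 2 ≤ 2 / μ := by
    rw [div_le_div_iff₀ (by norm_num) h0]
    nlinarith
  have hcont : ContinuousOn (fun a : ℝ => a + μ * (1 - Real.exp a))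
      (Set.Icc ((1 - μ) / 2) (2 / μ)) := by fun_prop
  obtain ⟨a, ha, hav⟩ := intermediate_value_Icc' hle hcont ⟨htv.le, hsv.le⟩
  exact ⟨a, lt_of_lt_of_le hs ha.1, hav⟩

/-- For every `μ` with `0 < μ < 1` the recursion has a solution with `y 0 > 0` and `y n = 0` for
all `n ≥ 1`; in particular this solution is bounded. Hence it is not true that for every `μ > 0`
and every `y 0 > 0` the solution is unbounded. -/
theorem result :
    (∀ μ : ℝ, 0 < μ → μ < 1 →
      ∃ y : ℕ → ℝ, IsSolution μ y ∧ 0 < y 0 ∧ ∀ n, 1 ≤ n → y n = 0) ∧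
    ¬ ∀ μ : ℝ, 0 < μ → ∀ y : ℕ → ℝ, IsSolution μ y → 0 < y 0 → ¬ ∃ C, ∀ n, |y n| ≤ C := by
  have main : ∀ μ : ℝ, 0 < μ → μ < 1 →
      ∃ y : ℕ → ℝ, IsSolution μ y ∧ 0 < y 0 ∧ ∀ n, 1 ≤ n → y n = 0 := by
    intro μ h0 h1
    obtain ⟨a, ha, hav⟩ := exists_start μ h0 h1
    refine ⟨fun n => if n = 0 then a else 0, ⟨?_, ?_⟩, by simpa using ha, ?_⟩
    · intro n
      rcases Nat.eq_zero_or_pos n with rfl | hn
      · simpa using hav.symm
      · have : n ≠ 0 := by omega
        simp [this]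
    · intro n hn
      have e1 : n ≠ 0 := by omega
      have e2 : 2 * n - 1 ≠ 0 := by omega
      simp [e1, e2]
    · intro n hn
      have : n ≠ 0 := by omega
      simp [this]
  refine ⟨main, fun h => ?_⟩
  obtain ⟨y, hy, hy0, hyn⟩ := main (1 / 2) (by norm_num) (by norm_num)
  apply h (1 / 2) (by norm_num) y hy hy0
  refine ⟨|y 0|, fun n => ?_⟩
  rcases Nat.eq_zero_or_pos n with rfl | hn
  · exact le_rfl
  · rw [hyn n hn]; simp

end Pool.Agent.Results.MP_1375b8_an.EventuallyZero
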